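import Pool.Agent.Lib.MP_0fb7ac_an.Final

/-!
Negative answer to Q1 of MP_0fb7ac_an, with the sharp constant.

The definitions `Plane`, `IsPiecewiseC1`, `gLength`, `gDist`, `gDiam` are in
`Pool/Agent/Lib/MP_0fb7ac_an/Defs.lean`.
-/

namespace Pool.Agent.Results.MP_0fb7ac_an.DiameterTwoPi

open MeasureTheory InnerProductSpace Pool.Agent.Lib.MP_0fb7ac_an
open scoped Laplacian

/-- (1) It is false that every C^2 supersolution `u` of the Liouville equation on the plane with
finite area `∫ e^{2u}` has `diam_g ≤ π` for `g = e^{2u} δ`.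
(2) The bound `2π` cannot be improved: for every `L < 2π` there is a real analytic (in particular
C^∞) function `u` on the plane with `Δ u + e^{2u} ≤ 0`, with `e^{2u}` integrable, with bounded
curvature `-e^{-2u} Δ u ≤ C`, and with `diam_g > L`. -/
theorem result :
    (¬ ∀ u : Plane → ℝ, ContDiff ℝ 2 u →
      (∀ x, (Laplacian.laplacian u) x + Real.exp (2 * u x) ≤ 0) →
      Integrable (fun x => Real.exp (2 * u x)) →
      gDiam u ≤ ENNReal.ofReal Real.pi) ∧
    (∀ L : ℝ, L < 2 * Real.pi → ∃ u : Plane → ℝ, ContDiff ℝ ⊤ u ∧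
      (∀ x, (Laplacian.laplacian u) x + Real.exp (2 * u x) ≤ 0) ∧
      Integrable (fun x => Real.exp (2 * u x)) ∧
      (∃ C : ℝ, ∀ x, -((Laplacian.laplacian u) x) ≤ C * Real.exp (2 * u x)) ∧
      ENNReal.ofReal L < gDiam u) := by
  have h2 : ∀ L : ℝ, L < 2 * Real.pi → ∃ u : Plane → ℝ, ContDiff ℝ ⊤ u ∧
      (∀ x, (Laplacian.laplacian u) x + Real.exp (2 * u x) ≤ 0) ∧
      Integrable (fun x => Real.exp (2 * u x)) ∧
      (∃ C : ℝ, ∀ x, -((Laplacian.laplacian u) x) ≤ C * Real.exp (2 * u x)) ∧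
      ENNReal.ofReal L < gDiam u := by
    intro L hL
    obtain ⟨e, he, hd⟩ := exists_example hL
    exact ⟨U e, U_contDiff he, U_super he, U_integrable he, U_curv_bdd he, hd⟩
  refine ⟨fun hall => ?_, h2⟩
  obtain ⟨u, hu, hs, hi, -, hd⟩ := h2 Real.pi (by linarith [Real.pi_pos])
  exact absurd (hall u (hu.of_le le_top) hs hi) (not_le.mpr hd)

end Pool.Agent.Results.MP_0fb7ac_an.DiameterTwoPi
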